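import Pool.Agent.Helper687.Arith.Proof

universe u

namespace Pool.Agent.Results.MP_c01b7c_lc.ProvableInPA

open FirstOrder FirstOrder.Language Pool.Agent.Helper687.Arith

/-- **PA proves `∀ e, ∃ n, n →_* (e + 1)^e_2`.** The first two parts are checks: the theory `PA`
holds in `ℕ`, and in `ℕ` the arithmetical formula `arrowF` expresses the Paris-Harrington relation
`n →_* (k)^e_2`. The last part says that the sentence `phSentence`, which is
`∀ e, ∃ n, arrowF n (e + 1) e`, holds in all models of `PA`; by Goedel's completeness theorem this
means that it is provable in `PA`. -/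
theorem result : ℕ ⊨ PA ∧
    (∀ n k e : ℕ, (arrowF (&0) (&1) (&2) : LA.BoundedFormula Empty 3).Realize default ![n, k, e] ↔
      PHRel n k e 2) ∧
    PA ⊨ᵇ phSentence ∧ ∀ (M : Type u) [LA.Structure M] [M ⊨ PA], M ⊨ phSentence := by
  refine ⟨nat_models_PA, fun n k e => ?_, ?_, fun M _ _ => realize_phSentence_raw M⟩
  · exact nat_realize_arrowF n k e
  · intro M v xs
    have h : M ⊨ phSentence := realize_phSentence_raw M
    have e1 : v = default := Subsingleton.elim _ _
    have e2 : xs = default := Subsingleton.elim _ _
    rw [e1, e2]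
    exact h


end Pool.Agent.Results.MP_c01b7c_lc.ProvableInPA
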